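import Pool.Agent.MP_812062_gt.Mg.Graph

set_option autoImplicit false

namespace Pool.Agent.Results.MP_812062_gt.CompactGraph

/-- A continuum (compact connected metric space) whose span is at least `3` while its surjective
span is at most `1`. -/
theorem result :
    ∃ (X : Type) (_ : MetricSpace X) (_ : CompactSpace X) (_ : ConnectedSpace X),
      (3 : ENNReal) ≤ (⨆ (Z : Set (X × X)) (_ : IsConnected Z)
          (_ : Prod.fst '' Z = Prod.snd '' Z), ⨅ p ∈ Z, edist p.1 p.2) ∧
      (⨆ (Z : Set (X × X)) (_ : IsConnected Z)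
          (_ : Prod.fst '' Z = Set.univ ∧ Prod.snd '' Z = Set.univ),
          ⨅ p ∈ Z, edist p.1 p.2) ≤ 1 := by
  obtain ⟨X, m, k, c, ⟨Z, hZ, hp, h3⟩, h1⟩ := Pool.Agent.MP_812062_gt.exists_graph
  refine ⟨X, m, k, c, ?_, ?_⟩
  · refine le_iSup_of_le Z (le_iSup_of_le hZ (le_iSup_of_le hp ?_))
    refine le_iInf₂ fun p hp => ?_
    rw [edist_dist]
    have := ENNReal.ofReal_le_ofReal (h3 p hp)
    simpa using this
  · refine iSup_le fun Z => iSup_le fun hZ => iSup_le fun hs => ?_
    obtain ⟨p, hp, hd⟩ := h1 Z hZ hs.1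
    refine iInf₂_le_of_le p hp ?_
    rw [edist_dist]
    exact ENNReal.ofReal_le_one.2 hd

end Pool.Agent.Results.MP_812062_gt.CompactGraph
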